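import Pool.Agent.Y795.PiH.Stm
import Pool.Agent.Helper799.PNT

/-!
# The sum over the primes (project PH, job PH5)
-/

set_option autoImplicit false

open Filter Finset

namespace Pool.Agent.Y614.PiH

open Pool.Agent.Y795.PiH

theorem theta_nat (n : ℕ) :
    Chebyshev.theta (n : ℝ) = ∑ q ∈ (Icc 0 n).filter Nat.Prime, Real.log q := by
  rw [Chebyshev.theta_eq_sum_Icc, Nat.floor_natCast]

/-- a single term of the first kind -/
theorem term1 (p q : ℕ) (hp : 1 ≤ p) (hq : q.Prime) :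
    (Nat.log q (4 * p) : ℝ) * Real.log q ≤
      Real.log q + (if q ≤ Nat.sqrt (4 * p) then Real.log (4 * p) else 0) := by
  have hq1 : (1 : ℝ) ≤ q := by exact_mod_cast hq.one_le
  have hlq : 0 ≤ Real.log q := Real.log_nonneg hq1
  split_ifs with h
  · have h1 : (q : ℝ) ^ (Nat.log q (4 * p)) ≤ 4 * p := by
      have := Nat.pow_log_le_self q (x := 4 * p) (by omega)
      exact_mod_cast this
    have h2 := Real.log_le_log (by positivity) h1
    rw [Real.log_pow] at h2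
    linarith
  · have h1 : 4 * p < q ^ 2 := by
      rw [not_le, Nat.sqrt_lt'] at h
      exact h
    have h2 : Nat.log q (4 * p) < 2 := Nat.log_lt_of_lt_pow (by omega) h1
    have h3 : (Nat.log q (4 * p) : ℝ) ≤ 1 := by
      have : Nat.log q (4 * p) ≤ 1 := by omega
      exact_mod_cast this
    nlinarith

/-- the first part of the sum -/
theorem part1 (p : ℕ) (hp : 1 ≤ p) :
    ∑ q ∈ ((range (4 * p + 1)).filter (fun q => q.Prime ∧ q ≠ 2)).filter (fun q => ¬ 7 * p < 2 * q),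
      (ex p q : ℝ) * Real.log q ≤
      (p + 1) * (Chebyshev.theta ((7 * p / 2 : ℕ) : ℝ) + (Nat.sqrt (4 * p) + 1) * Real.log (4 * p)) := by
  have hl4 : 0 ≤ Real.log (4 * p) := by
    apply Real.log_nonneg
    have : (1 : ℝ) ≤ p := by exact_mod_cast hp
    linarith
  calc ∑ q ∈ ((range (4 * p + 1)).filter (fun q => q.Prime ∧ q ≠ 2)).filter (fun q => ¬ 7 * p < 2 * q),
      (ex p q : ℝ) * Real.log q ≤
      ∑ q ∈ ((range (4 * p + 1)).filter (fun q => q.Prime ∧ q ≠ 2)).filter (fun q => ¬ 7 * p < 2 * q),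
      (p + 1 : ℝ) * (Real.log q + (if q ≤ Nat.sqrt (4 * p) then Real.log (4 * p) else 0)) := by
        apply sum_le_sum
        intro q hq
        simp only [mem_filter, mem_range] at hq
        obtain ⟨⟨h1, h2, h3⟩, h4⟩ := hq
        unfold ex
        rw [if_neg h4]
        push_cast
        rw [mul_assoc]
        exact mul_le_mul_of_nonneg_left (term1 p q hp h2) (by positivity)
    _ = (p + 1 : ℝ) * (∑ q ∈ ((range (4 * p + 1)).filter (fun q => q.Prime ∧ q ≠ 2)).filter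
          (fun q => ¬ 7 * p < 2 * q), Real.log q +
        ∑ q ∈ ((range (4 * p + 1)).filter (fun q => q.Prime ∧ q ≠ 2)).filter
          (fun q => ¬ 7 * p < 2 * q), (if q ≤ Nat.sqrt (4 * p) then Real.log (4 * p) else 0)) := by
        rw [← mul_sum, sum_add_distrib]
    _ ≤ _ := by
        apply mul_le_mul_of_nonneg_left _ (by positivity)
        apply add_le_add
        · rw [theta_nat]
          apply sum_le_sum_of_subset_of_nonneg
          · intro q hq
            simp only [mem_filter, mem_range, mem_Icc] at hq ⊢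
            obtain ⟨⟨h1, h2, h3⟩, h4⟩ := hq
            exact ⟨⟨by omega, by omega⟩, h2⟩
          · intro q hq _
            apply Real.log_nonneg
            have := (mem_filter.1 hq).2.one_le
            exact_mod_cast this
        · rw [← sum_filter, sum_const, nsmul_eq_mul]
          apply mul_le_mul_of_nonneg_right _ hl4
          have hsub : (((range (4 * p + 1)).filter (fun q => q.Prime ∧ q ≠ 2)).filter
              (fun q => ¬ 7 * p < 2 * q)).filter (fun q => q ≤ Nat.sqrt (4 * p)) ⊆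
              range (Nat.sqrt (4 * p) + 1) := by
            intro q hq
            rw [mem_filter] at hq
            rw [mem_range]
            omega
          have := card_le_card hsub
          rw [card_range] at this
          exact_mod_cast this

/-- the second part of the sum -/
theorem part2 (p : ℕ) :
    ∑ q ∈ ((range (4 * p + 1)).filter (fun q => q.Prime ∧ q ≠ 2)).filter (fun q => 7 * p < 2 * q),
      (ex p q : ℝ) * Real.log q ≤
      2 * ∑ j ∈ Ioc (7 * p / 2) (4 * p),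
        (Chebyshev.theta (j : ℝ) - Chebyshev.theta ((7 * p / 2 : ℕ) : ℝ)) := by
  set Q := ((range (4 * p + 1)).filter (fun q => q.Prime ∧ q ≠ 2)).filter (fun q => 7 * p < 2 * q)
    with hQ
  have hmem : ∀ q ∈ Q, q.Prime ∧ 7 * p / 2 < q ∧ q ≤ 4 * p ∧ 7 * p < 2 * q := by
    intro q hq
    simp only [hQ, mem_filter, mem_range] at hq
    obtain ⟨⟨h1, h2, h3⟩, h4⟩ := hq
    exact ⟨h2, by omega, by omega, h4⟩
  have h1 : ∑ q ∈ Q, (ex p q : ℝ) * Real.log q =
      2 * ∑ q ∈ Q, ∑ j ∈ Ioc (7 * p / 2) (4 * p), (if q ≤ j then Real.log q else 0) := by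
    rw [mul_sum]
    apply sum_congr rfl
    intro q hq
    obtain ⟨h2, h3, h4, h5⟩ := hmem q hq
    rw [← sum_filter, sum_const, nsmul_eq_mul]
    have h6 : (Ioc (7 * p / 2) (4 * p)).filter (fun j => q ≤ j) = Icc q (4 * p) := by
      ext j
      simp only [mem_filter, mem_Ioc, mem_Icc]
      omega
    rw [h6, Nat.card_Icc]
    unfold ex
    rw [if_pos h5, ← mul_assoc]
    congr 1
    have : 8 * p + 2 - 2 * q = 2 * (4 * p + 1 - q) := by omega
    rw [this]
    push_cast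
    ring
  rw [h1, sum_comm]
  apply mul_le_mul_of_nonneg_left _ (by norm_num)
  apply sum_le_sum
  intro j hj
  rw [mem_Ioc] at hj
  rw [← sum_filter, le_sub_iff_add_le, theta_nat, theta_nat, ← sum_union]
  · apply sum_le_sum_of_subset_of_nonneg
    · intro q hq
      rw [mem_filter, mem_Icc]
      rcases mem_union.1 hq with h | h
      · obtain ⟨h2, h3⟩ := mem_filter.1 h
        exact ⟨⟨by omega, h3⟩, (hmem q h2).1⟩
      · obtain ⟨h2, h3⟩ := mem_filter.1 h
        have h4 := mem_Icc.1 h2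
        exact ⟨⟨by omega, by omega⟩, h3⟩
    · intro q hq _
      apply Real.log_nonneg
      have := (mem_filter.1 hq).2.one_le
      exact_mod_cast this
  · rw [disjoint_left]
    intro q hq hq'
    have h2 := (hmem q (mem_filter.1 hq).1).2.1
    have h3 := mem_Icc.1 (mem_filter.1 hq').1
    omega

theorem gauss (M : ℕ) : ∑ i ∈ range M, ((i : ℝ) + 1) = M * (M + 1) / 2 := by
  induction M with
  | zero => simp
  | succ n ih => rw [sum_range_succ, ih]; push_cast; ring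

/-- the second part with the bounds for `θ` -/
theorem part2b (p : ℕ) (δ X : ℝ) (hδ : 0 ≤ δ) (hX : ∀ x : ℝ, X ≤ x → |Chebyshev.theta x - x| ≤ δ * x)
    (hp : X ≤ ((7 * p / 2 : ℕ) : ℝ)) :
    2 * ∑ j ∈ Ioc (7 * p / 2) (4 * p),
        (Chebyshev.theta (j : ℝ) - Chebyshev.theta ((7 * p / 2 : ℕ) : ℝ)) ≤
      (p + 1) * (p + 3) / 4 + 8 * δ * p * (p + 1) := by
  set m := 7 * p / 2 with hm
  have hm1 : 7 * p ≤ 2 * m + 1 := by omega
  have hm2 : 2 * m ≤ 7 * p := by omega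
  have hm3 : m ≤ 4 * p := by omega
  have hm1' : (7 : ℝ) * p ≤ 2 * m + 1 := by exact_mod_cast hm1
  have hm2' : (2 : ℝ) * m ≤ 7 * p := by exact_mod_cast hm2
  have hθm := hX m hp
  rw [abs_le] at hθm
  have h1 : ∀ j ∈ Ioc m (4 * p), Chebyshev.theta (j : ℝ) - Chebyshev.theta (m : ℝ) ≤
      ((j : ℝ) - m) + 8 * δ * p := by
    intro j hj
    rw [mem_Ioc] at hj
    have hmj : (m : ℝ) ≤ j := by exact_mod_cast hj.1.le
    have hj4 : (j : ℝ) ≤ 4 * p := by exact_mod_cast hj.2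
    have h2 := hX j (hp.trans hmj)
    rw [abs_le] at h2
    have h3 : δ * j ≤ δ * (4 * p) := mul_le_mul_of_nonneg_left hj4 hδ
    have h4 : δ * m ≤ δ * (4 * p) := mul_le_mul_of_nonneg_left (hmj.trans hj4) hδ
    linarith [h2.2, hθm.1]
  have h2 : ∑ j ∈ Ioc m (4 * p), (((j : ℝ) - m) + 8 * δ * p) =
      ((4 * p - m : ℕ) : ℝ) * (((4 * p - m : ℕ) : ℝ) + 1) / 2 + ((4 * p - m : ℕ) : ℝ) * (8 * δ * p) := by
    rw [← gauss, ← Finset.Ico_add_one_add_one_eq_Ioc, Finset.sum_Ico_eq_sum_range,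
      show 4 * p + 1 - (m + 1) = 4 * p - m by omega, sum_add_distrib, sum_const, card_range,
      nsmul_eq_mul]
    congr 1
    apply sum_congr rfl
    intro i _
    push_cast
    ring
  have h3 : ((4 * p - m : ℕ) : ℝ) ≤ (p + 1) / 2 := by
    rw [Nat.cast_sub hm3]
    push_cast
    linarith
  have h4 : (0 : ℝ) ≤ ((4 * p - m : ℕ) : ℝ) := Nat.cast_nonneg _
  set M : ℝ := ((4 * p - m : ℕ) : ℝ) with hM
  have hp0 : (0 : ℝ) ≤ p := Nat.cast_nonneg p
  calc 2 * ∑ j ∈ Ioc m (4 * p), (Chebyshev.theta (j : ℝ) - Chebyshev.theta (m : ℝ)) ≤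
        2 * ∑ j ∈ Ioc m (4 * p), (((j : ℝ) - m) + 8 * δ * p) := by
        apply mul_le_mul_of_nonneg_left _ (by norm_num)
        exact sum_le_sum h1
    _ = M * (M + 1) + 2 * (M * (8 * δ * p)) := by rw [h2]; ring
    _ ≤ (p + 1) / 2 * ((p + 1) / 2 + 1) + 2 * ((p + 1) / 2 * (8 * δ * p)) := by gcongr
    _ = _ := by ring

/-- PH5 -/
theorem sum : S_sum := by
  intro ε hε
  set δ : ℝ := min 1 (ε / 23) with hδ
  have hδ0 : 0 < δ := by rw [hδ]; positivity
  have hδ1 : δ ≤ 1 := min_le_left _ _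
  have hδ2 : δ ≤ ε / 23 := min_le_right _ _
  have hPNT := Pool.Agent.Helper799.PNT.theta_div_tendsto
  have h1 : ∀ᶠ x : ℝ in atTop, |Chebyshev.theta x / x - 1| < δ := by
    have := (Metric.tendsto_nhds.1 hPNT) δ hδ0
    simpa [Real.dist_eq] using this
  obtain ⟨X0, hX0⟩ := eventually_atTop.1 h1
  set X : ℝ := max X0 1 with hX
  have hXθ : ∀ x : ℝ, X ≤ x → |Chebyshev.theta x - x| ≤ δ * x := by
    intro x hx
    have hx1 : 1 ≤ x := (le_max_right _ _).trans hx
    have hx0 : 0 < x := by linarith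
    have h2 := (hX0 x ((le_max_left _ _).trans hx)).le
    have h3 : Chebyshev.theta x - x = (Chebyshev.theta x / x - 1) * x := by field_simp
    rw [h3, abs_mul, abs_of_pos hx0]
    exact mul_le_mul_of_nonneg_right h2 hx0.le
  have hev : ∀ᶠ p : ℕ in atTop, X ≤ p ∧ (1 : ℝ) ≤ p ∧ 82 / ε ≤ (p : ℝ) ^ (1 / 4 : ℝ) := by
    have ha : ∀ x : ℝ, ∀ᶠ N : ℕ in atTop, x ≤ (N : ℝ) := fun x =>
      tendsto_natCast_atTop_atTop.eventually_ge_atTop x
    have hb : Tendsto (fun p : ℕ => (p : ℝ) ^ (1 / 4 : ℝ)) atTop atTop :=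
      (tendsto_rpow_atTop (by norm_num)).comp tendsto_natCast_atTop_atTop
    exact (ha _).and ((ha _).and (hb.eventually_ge_atTop _))
  filter_upwards [hev] with p hp
  obtain ⟨hp1, hp2, hp3⟩ := hp
  have hp2' : 1 ≤ p := by exact_mod_cast hp2
  have hm2 : 2 * (7 * p / 2) ≤ 7 * p := by omega
  have hm2' : (2 : ℝ) * ((7 * p / 2 : ℕ) : ℝ) ≤ 7 * p := by exact_mod_cast hm2
  have hpm : p ≤ 7 * p / 2 := by omega
  have hpm' : X ≤ ((7 * p / 2 : ℕ) : ℝ) := hp1.trans (by exact_mod_cast hpm)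
  rw [← sum_filter_add_sum_filter_not _ (fun q => 7 * p < 2 * q)]
  have hA := part1 p hp2'
  have hB := (part2 p).trans (part2b p δ X hδ0.le hXθ hpm')
  have hθ : Chebyshev.theta ((7 * p / 2 : ℕ) : ℝ) ≤ (1 + δ) * (7 / 2 * p) := by
    have h2 := (abs_le.1 (hXθ _ hpm')).2
    have h3 : (1 + δ) * ((7 * p / 2 : ℕ) : ℝ) ≤ (1 + δ) * (7 / 2 * p) := by
      apply mul_le_mul_of_nonneg_left _ (by positivity)
      linarith
    linarith
  -- the small terms
  set s : ℝ := (p : ℝ) ^ (1 / 4 : ℝ) with hs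
  have hs1 : 1 ≤ s := Real.one_le_rpow hp2 (by norm_num)
  have hs4 : s ^ 4 = p := by
    rw [hs, ← Real.rpow_natCast, ← Real.rpow_mul (by linarith)]
    norm_num
  have hlog : Real.log (4 * p) ≤ 4 * s := by
    rw [← hs4, Real.log_mul (by norm_num) (by positivity), Real.log_pow]
    have h2 := Real.log_le_sub_one_of_pos (show 0 < s by linarith)
    have h3 : Real.log 4 ≤ 4 := by
      have := Real.log_le_sub_one_of_pos (show (0 : ℝ) < 4 by norm_num)
      linarith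
    push_cast
    linarith
  have hlog0 : 0 ≤ Real.log (4 * p) := Real.log_nonneg (by linarith)
  have hsq : (Nat.sqrt (4 * p) : ℝ) ≤ 2 * s ^ 2 := by
    have h2 : (Nat.sqrt (4 * p) : ℝ) ^ 2 ≤ (2 * s ^ 2) ^ 2 := by
      have h3 : Nat.sqrt (4 * p) ^ 2 ≤ 4 * p := Nat.sqrt_le' _
      have h4 : (Nat.sqrt (4 * p) : ℝ) ^ 2 ≤ 4 * p := by exact_mod_cast h3
      calc (Nat.sqrt (4 * p) : ℝ) ^ 2 ≤ 4 * p := h4
        _ = (2 * s ^ 2) ^ 2 := by rw [← hs4]; ring
    exact le_of_pow_le_pow_left₀ (by norm_num) (by positivity) h2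
  have hs7 : ∀ k : ℕ, k ≤ 7 → s ^ k ≤ s ^ 7 := fun k hk => pow_le_pow_right₀ hs1 hk
  have hE : ((p : ℝ) + 1) * ((Nat.sqrt (4 * p) + 1) * Real.log (4 * p)) ≤ 24 * s ^ 7 := by
    have a1 : (p : ℝ) + 1 ≤ 2 * s ^ 4 := by rw [hs4]; linarith
    have a2 : (Nat.sqrt (4 * p) : ℝ) + 1 ≤ 3 * s ^ 2 := by nlinarith [one_le_pow₀ hs1 (n := 2)]
    calc ((p : ℝ) + 1) * ((Nat.sqrt (4 * p) + 1) * Real.log (4 * p)) ≤
          (2 * s ^ 4) * ((3 * s ^ 2) * (4 * s)) := by gcongr
      _ = 24 * s ^ 7 := by ring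
  have hfin : 17 * (p : ℝ) + 24 * s ^ 7 ≤ ε / 2 * (p : ℝ) ^ 2 := by
    have a1 : (p : ℝ) ≤ s ^ 7 := by rw [← hs4]; exact hs7 4 (by norm_num)
    have a2 : (p : ℝ) ^ 2 = s ^ 7 * s := by rw [← hs4]; ring
    have a3 : 82 ≤ s * ε := by rwa [div_le_iff₀ hε] at hp3
    rw [a2]
    have a4 : 0 < s ^ 7 := by positivity
    nlinarith
  have hδp : δ * (23 / 2) * (p : ℝ) ^ 2 ≤ ε / 2 * (p : ℝ) ^ 2 := by
    apply mul_le_mul_of_nonneg_right _ (by positivity)
    linarith
  have hA' : ∑ q ∈ ((range (4 * p + 1)).filter (fun q => q.Prime ∧ q ≠ 2)).filter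
      (fun q => ¬ 7 * p < 2 * q), (ex p q : ℝ) * Real.log q ≤
      (p + 1) * ((1 + δ) * (7 / 2 * p)) + 24 * s ^ 7 := by
    refine hA.trans ?_
    rw [mul_add]
    apply add_le_add _ hE
    exact mul_le_mul_of_nonneg_left hθ (by positivity)
  have hδp1 : δ * p ≤ p := by nlinarith
  calc _ ≤ ((p : ℝ) + 1) * (p + 3) / 4 + 8 * δ * p * (p + 1) +
        ((p + 1) * ((1 + δ) * (7 / 2 * p)) + 24 * s ^ 7) := add_le_add hB hA'
    _ ≤ (15 / 4 + ε) * (p : ℝ) ^ 2 := by nlinarith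

end Pool.Agent.Y614.PiH
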